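import Pool.Agent.MP_5c28a4_al.H89.Spec

set_option autoImplicit false

namespace Pool.Agent.MP_5c28a4_al.H48

open Pool.Agent.Burnside6 Pool.Agent.MP_5c28a4_al.H89

variable {G : Type} [Group G]

/-- the block number `i` of the word `w` -/
def fb (T : Sys G) (w : ℕ → T.Λ) (i : ℕ) : G × ℤ × G := T.blk (w (i / T.p)) (i % T.p)

/-- product of the first blocks -/
def pr (T : Sys G) (w : ℕ → T.Λ) (i : ℕ) : G := prd (fun j => bval T.U (fb T w j)) i

/-- the vertices of the chain -/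
def xx (T : Sys G) (a z : G) (w : ℕ → T.Λ) (i : ℕ) : G := a * pr T w i * z

/-- the conjugators -/
def qq (T : Sys G) (a : G) (w : ℕ → T.Λ) (i : ℕ) : G := a * pr T w i * (fb T w i).1

/-- the witnesses -/
def uu (T : Sys G) (a : G) (w : ℕ → T.Λ) (i : ℕ) : G := qq T a w i * T.U * (qq T a w i)⁻¹

theorem fb_eq (T : Sys G) (w : ℕ → T.Λ) (t s : ℕ) (hs : s < T.p) :
    fb T w (t * T.p + s) = T.blk (w t) s := by
  have hp : 0 < T.p := by omega
  have h1 : (t * T.p + s) / T.p = t := by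
    rw [add_comm, Nat.add_mul_div_right _ _ hp, Nat.div_eq_of_lt hs, zero_add]
  have h2 : (t * T.p + s) % T.p = s := by
    rw [add_comm, Nat.add_mul_mod_self_right, Nat.mod_eq_of_lt hs]
  unfold fb
  rw [h1, h2]

theorem pr_succ (T : Sys G) (w : ℕ → T.Λ) (i : ℕ) :
    pr T w (i + 1) = pr T w i * bval T.U (fb T w i) := rfl

theorem pr_add (T : Sys G) (w : ℕ → T.Λ) (t s : ℕ) (hs : s ≤ T.p) :
    pr T w (t * T.p + s) = pr T w (t * T.p) * prd (fun j => bval T.U (T.blk (w t) j)) s := by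
  unfold pr
  rw [prd_add]
  congr 1
  apply prd_congr
  intro j hj
  rw [fb_eq T w t j (by omega)]

theorem pr_mul (T : Sys G) (w : ℕ → T.Λ) (t : ℕ) :
    pr T w (t * T.p) = prd (fun t => T.val (w t)) t := by
  induction t with
  | zero => rw [zero_mul]; rfl
  | succ t ih => rw [Nat.succ_mul, pr_add T w t T.p le_rfl, ih, prd_succ]; rfl

theorem qq_eq (T : Sys G) (a : G) (w : ℕ → T.Λ) (t s : ℕ) (hs : s < T.p) :
    qq T a w (t * T.p + s) = a * prd (fun t => T.val (w t)) t * T.Q (w t) s := by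
  unfold qq Sys.Q
  rw [pr_add T w t s hs.le, pr_mul, fb_eq T w t s hs]
  simp only [mul_assoc]

theorem xx_mul (T : Sys G) (a z : G) (w : ℕ → T.Λ) (t : ℕ) :
    xx T a z w (t * T.p) = a * prd (fun t => T.val (w t)) t * z := by
  unfold xx; rw [pr_mul]

theorem xx_zero (T : Sys G) (a z : G) (w : ℕ → T.Λ) : xx T a z w 0 = a * z := by
  unfold xx pr; simp

theorem xx_d (X : Nm G) (T : Sys G) (a z : G) (w : ℕ → T.Λ) (i : ℕ) :
    X.d (xx T a z w i) (xx T a z w (i + 1)) = X.d z (bval T.U (fb T w i) * z) := by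
  unfold xx
  rw [pr_succ, ← X.d_mul (a * pr T w i) z]
  simp only [mul_assoc]

theorem disp_left (X : Nm G) {U b z : G} {ω : ℕ} (hU : X.d z (U * z) ≤ ω)
    (hb : X.d z (b * z) ≤ ω) : X.d z (b * U * b⁻¹ * z) ≤ 3 * ω := by
  have t1 := X.tri z (b * z) (b * U * b⁻¹ * z)
  have t2 := X.tri (b * z) (b * U * z) (b * U * b⁻¹ * z)
  have e1 : X.d (b * z) (b * U * z) = X.d z (U * z) := by rw [mul_assoc, Nm.d_mul]
  have e2 : X.d (b * U * z) (b * U * b⁻¹ * z) = X.d z (b * z) := by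
    rw [mul_assoc (b * U), Nm.d_mul, Nm.d_inv_self]
  omega

theorem disp_right (X : Nm G) {U b z : G} {ω : ℕ} (hU : X.d z (U * z) ≤ ω)
    (hb : X.d z (b * z) ≤ ω) : X.d (b * z) (U * (b * z)) ≤ 3 * ω := by
  have t1 := X.tri' (b * z) z (U * (b * z))
  have t2 := X.tri z (U * z) (U * (b * z))
  rw [Nm.d_mul] at t2
  omega

theorem len_blk (X : Nm G) {U z : G} (b : G × ℤ × G) {ω ℓ : ℕ} (h1 : X.d z (b.1 * z) ≤ ω)
    (h2 : X.d z (b.2.2 * z) ≤ ω) (h : ((ℓ + 2 * ω : ℕ) : ℝ) ≤ |(b.2.1 : ℝ)| * X.τ U) :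
    ℓ ≤ X.d z (bval U b * z) := by
  have h3 : ℓ + 2 * ω ≤ X.d z (U ^ b.2.1 * z) := by
    exact_mod_cast h.trans (tau_le_zpow X U z b.2.1)
  have t1 := X.tri' (b.1 * z) z (b.1 * (U ^ b.2.1 * z))
  have t2 := X.tri'' z (bval U b * z) (b.1 * (U ^ b.2.1 * z))
  have e : X.d (b.1 * (U ^ b.2.1 * z)) (bval U b * z) = X.d z (b.2.2 * z) := by
    unfold bval
    rw [mul_assoc, mul_assoc, Nm.d_mul, Nm.d_mul]
  rw [Nm.d_mul] at t1
  omega

theorem nc_step (hb : CSAb G) {q U J : G} {e : ℤ} (h : ¬ Commute J U) :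
    ¬ Commute (q * U * q⁻¹) (q * U ^ e * J * U * (q * U ^ e * J)⁻¹) := by
  intro hc
  have e1 : q * U * q⁻¹ = (q * U ^ e) * U * (q * U ^ e)⁻¹ := by group
  have e2 : q * U ^ e * J * U * (q * U ^ e * J)⁻¹ = (q * U ^ e) * (J * U * J⁻¹) * (q * U ^ e)⁻¹ := by
    group
  rw [e1, e2, commute_conj_conj] at hc
  exact h (hb U J hc.symm)

theorem chain {X : Nm G} {E : ℕ} (hX : TF X E) {T : Sys G} {z : G} {ω ℓ : ℕ} (hv : T.Vis X z ω ℓ)
    (a : G) {n : ℕ} {w : ℕ → T.Λ} (hw : ∀ t, t + 1 < n → T.ok (w t) (w (t + 1))) :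
    WC X (xx T a z w) (uu T a w) (n * T.p) (3 * ω) ℓ := by
  have hp : 0 < T.p := lt_of_lt_of_le (by norm_num) hv.p_ge
  have hm : ∀ i, i % T.p < T.p := fun i => Nat.mod_lt i hp
  refine ⟨fun i _ h => hv.ne ?_, fun i _ => ?_, fun i _ => ?_, fun i _ => ?_, fun i hi => ?_⟩
  · unfold uu at h
    have : T.U = (qq T a w i)⁻¹ * (qq T a w i * T.U * (qq T a w i)⁻¹) * qq T a w i := by group
    rw [this, h]; group
  · have e : uu T a w i * xx T a z w i =
        a * pr T w i * ((fb T w i).1 * T.U * ((fb T w i).1)⁻¹ * z) := by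
      unfold uu qq xx; group
    rw [e]; unfold xx; rw [Nm.d_mul]
    exact disp_left X hv.dU (hv.dl _ _ (hm i))
  · have e1 : xx T a z w (i + 1) =
        a * pr T w i * (fb T w i).1 * T.U ^ (fb T w i).2.1 * ((fb T w i).2.2 * z) := by
      unfold xx; rw [pr_succ]; unfold bval; simp only [mul_assoc]
    have e2 : uu T a w i * xx T a z w (i + 1) =
        a * pr T w i * (fb T w i).1 * T.U ^ (fb T w i).2.1 * (T.U * ((fb T w i).2.2 * z)) := by
      rw [e1]; unfold uu qq; group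
    rw [e2, e1, Nm.d_mul]
    exact disp_right X hv.dU (hv.dr _ _ (hm i))
  · rw [xx_d]
    exact len_blk X _ (hv.dl _ _ (hm i)) (hv.dr _ _ (hm i)) (hv.len _ _ (hm i))
  · have e : qq T a w (i + 1) =
        qq T a w i * T.U ^ (fb T w i).2.1 * ((fb T w i).2.2 * (fb T w (i + 1)).1) := by
      unfold qq; rw [pr_succ]; unfold bval; simp only [mul_assoc]
    unfold uu
    rw [e]
    apply nc_step hX.csab
    obtain ⟨t, s, hs, rfl⟩ : ∃ t s, s < T.p ∧ i = t * T.p + s :=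
      ⟨i / T.p, i % T.p, hm i, (Nat.div_add_mod' i T.p).symm⟩
    rw [fb_eq T w t s hs]
    rcases Nat.lt_or_ge (s + 1) T.p with h1 | h1
    · rw [add_assoc, fb_eq T w t (s + 1) h1]
      exact hv.nc (w t) s h1
    · have h2 : t * T.p + s + 1 = (t + 1) * T.p + 0 := by rw [Nat.succ_mul]; omega
      have h3 : s = T.p - 1 := by omega
      have h4 : t + 1 < n := by
        rw [h2, add_zero] at hi
        exact lt_of_mul_lt_mul_right hi (Nat.zero_le _)
      rw [h2, fb_eq T w (t + 1) 0 hp, h3]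
      exact hv.nc' _ _ (hw t h4)

theorem chain_up {X : Nm G} {T : Sys G} {z : G} {ℓ' : ℕ} (hp : 0 < T.p) (hu : T.Up X z ℓ')
    (a : G) (w : ℕ → T.Λ) (i : ℕ) : X.d (xx T a z w i) (xx T a z w (i + 1)) ≤ ℓ' := by
  rw [xx_d]; exact hu _ _ (Nat.mod_lt i hp)

theorem sysWord : SysWordStmt := by
  intro G _ X E hX T z ω ℓ hv a n w hw
  exact ⟨xx T a z w, uu T a w, chain hX hv a hw, fun t _ => xx_mul T a z w t,
    fun i => ⟨qq T a w i, rfl⟩⟩

theorem window {p Z : ℕ} (hp : Z + 8 ≤ p) (i : ℕ) :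
    ∃ j t s, j ≤ Z + 8 ∧ 4 ≤ s ∧ s + Z + 4 ≤ p ∧ i + j = t * p + s := by
  have h1 := Nat.div_add_mod' i p
  have h2 := Nat.mod_lt i (show 0 < p by omega)
  generalize i / p = t at h1
  generalize i % p = r at h1 h2
  rcases Nat.lt_or_ge r 4 with h | h
  · exact ⟨4 - r, t, 4, by omega, le_rfl, by omega, by omega⟩
  rcases Nat.lt_or_ge p (r + Z + 4) with h' | h'
  · refine ⟨p - r + 4, t + 1, 4, by omega, le_rfl, by omega, ?_⟩
    rw [Nat.succ_mul]; omega
  · exact ⟨0, t, r, by omega, h, h', by omega⟩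

theorem uu_eq (T : Sys G) (a : G) (w : ℕ → T.Λ) (t s : ℕ) (hs : s < T.p) :
    uu T a w (t * T.p + s) = a * prd (fun t => T.val (w t)) t * T.Q (w t) s * T.U *
      (a * prd (fun t => T.val (w t)) t * T.Q (w t) s)⁻¹ := by
  unfold uu; rw [qq_eq T a w t s hs]

theorem am (h : AlignStmt) : AMStmt := by
  intro G _ X E hX T T' S S' z z' t ω ℓ ℓ' β hg hg' hv hv' hℓ hu hβ ho
  obtain ⟨a, ha, b, hb, a', ha', b', hb', hc⟩ := ho
  obtain ⟨n, w, hw, e⟩ := hg.2 (a⁻¹ * b) (mul_mem (inv_mem ha) hb)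
  obtain ⟨n', w', hw', e'⟩ := hg'.2 (a'⁻¹ * b') (mul_mem (inv_mem ha') hb')
  have p1 := hv.p_ge
  have p2 := hv'.p_ge
  obtain ⟨i, k, -, -, hik⟩ := h G X E hX (xx T a z w) (uu T a w) (xx T' (t * a') z' w')
    (uu T' (t * a') w') (n * T.p) (n' * T'.p) (3 * ω) ℓ ℓ' 76 β (chain hX hv a hw)
    (chain hX hv' (t * a') hw') (by omega) (fun i _ => chain_up (by omega) hu a w i) (by omega) (by
      rw [xx_zero, xx_zero, xx_mul, xx_mul, ← e, ← e']
      simpa only [mul_assoc, mul_inv_cancel_left] using hc)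
  obtain ⟨j, t₁, s₁, j1, j2, j3, j4⟩ := window (Z := 34) (p := T.p) (by omega) i
  obtain ⟨j', t₂, s₂, k1, k2, k3, k4⟩ := window (Z := 13) (p := T'.p) (by omega) (k + j)
  refine ⟨a * prd (fun t => T.val (w t)) t₁, mul_mem ha (prd_mem fun _ _ => hg.1 _),
    a' * prd (fun t => T'.val (w' t)) t₂, mul_mem ha' (prd_mem fun _ _ => hg'.1 _),
    w t₁, w' t₂, s₁ + j', s₂, by omega, by omega, k2, by omega, fun m hm => ?_⟩
  have := hik (j + j' + m) (by omega)
  rw [show i + (j + j' + m) = t₁ * T.p + (s₁ + j' + m) by omega,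
    show k + (j + j' + m) = t₂ * T'.p + (s₂ + m) by omega, uu_eq T a w t₁ _ (by omega),
    uu_eq T' (t * a') w' t₂ _ (by omega)] at this
  simpa only [mul_assoc] using this

theorem alongSys (h : AlongStmt) : AlongSysStmt := by
  intro G _ X E hX T S z a b p p' ω ℓ ℓ' β hg hv hℓ hu hβ ha hb hc
  obtain ⟨n, w, hw, e⟩ := hg.2 (a⁻¹ * b) (mul_mem (inv_mem ha) hb)
  have p1 := hv.p_ge
  obtain ⟨i, -, hi⟩ := h G X E hX (xx T a z w) (uu T a w) p p' (n * T.p) (3 * ω) ℓ ℓ' 34 β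
    (chain hX hv a hw) (by omega) (fun i _ => chain_up (by omega) hu a w i) (by omega) (by
      rw [xx_zero, xx_mul, ← e]
      simpa only [mul_assoc, mul_inv_cancel_left] using hc)
  obtain ⟨j, t₁, s₁, j1, j2, j3, j4⟩ := window (Z := 13) (p := T.p) (by omega) i
  refine ⟨a * prd (fun t => T.val (w t)) t₁, mul_mem ha (prd_mem fun _ _ => hg.1 _),
    w t₁, s₁, j2, by omega, fun m hm => ?_⟩
  have := hi (j + m) (by omega)
  rwa [show i + (j + m) = t₁ * T.p + (s₁ + m) by omega, uu_eq T a w t₁ _ (by omega)] at this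

end Pool.Agent.MP_5c28a4_al.H48
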